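import Pool.Agent.W646.CI.Stm

set_option autoImplicit false

namespace Pool.Agent.W19.CI

open MeasureTheory Filter Topology Set
open Pool.Agent.W646.CI

theorem continuous_rho (K : ℕ) : Continuous (rho K) := by
  unfold rho
  fun_prop

theorem continuous_den (K j : ℕ) : Continuous (den K j) := by
  unfold den
  fun_prop

theorem rho_nonneg (K : ℕ) (hK : 3 ≤ K) (t : ℝ) (ht : 0 ≤ t) : 0 ≤ rho K t := by
  unfold rho
  have h1 : (0 : ℝ) ≤ (K : ℝ) - 1 := by
    have : (3 : ℝ) ≤ K := by exact_mod_cast hK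
    linarith
  positivity

theorem den_nonneg (K j : ℕ) (t : ℝ) : 0 ≤ den K j t := by
  unfold den ej
  positivity

theorem measurableSet_Om (K : ℕ) (a b : ℝ) : MeasurableSet (Om K a b) := by
  have h1 : MeasurableSet {s : ℂ | a ≤ s.re} :=
    measurableSet_le measurable_const Complex.measurable_re
  have h2 : MeasurableSet {s : ℂ | s.re < b} :=
    measurableSet_lt Complex.measurable_re measurable_const
  have hc : Measurable (fun s : ℂ => s.im - 8 * s.re ^ (K - 1)) := by fun_prop
  have h3 : MeasurableSet {s : ℂ | -Real.pi ≤ s.im - 8 * s.re ^ (K - 1)} :=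
    measurableSet_le measurable_const hc
  have h4 : MeasurableSet {s : ℂ | s.im - 8 * s.re ^ (K - 1) < Real.pi} :=
    measurableSet_lt hc measurable_const
  exact h1.inter (h2.inter (h3.inter h4))

theorem measurableSet_DD (K : ℕ) (R : ℝ) (j : ℕ) : MeasurableSet (DD K R j) := by
  have h1 : IsOpen {s : ℂ | |s.im - 8 * Real.sqrt j| < Real.pi / lj K j} :=
    isOpen_lt (by fun_prop) continuous_const
  have h2 : IsOpen {s : ℂ | ‖Complex.exp (((lj K j / 2 : ℝ) : ℂ) * (s - sj K j)) - 1‖ < R} :=
    isOpen_lt (by fun_prop) continuous_const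
  exact (h1.inter h2).measurableSet

theorem kappa_bound (K : ℕ) (R ε : ℝ) (j : ℕ) (hR : 0 < R) (hε : ε ≤ 1) :
    0 ≤ (mj K R ε j : ℝ) / (2 * R ^ 2 * ej K j) ∧
      (mj K R ε j : ℝ) / (2 * R ^ 2 * ej K j) ≤ 1 - ε := by
  have he : 0 < ej K j := Real.exp_pos _
  refine ⟨by positivity, ?_⟩
  rw [div_le_iff₀ (by positivity)]
  unfold mj
  have h1 : (0 : ℝ) ≤ 2 * (1 - ε) * R ^ 2 * ej K j := by
    have : 0 ≤ 1 - ε := by linarith
    positivity
  calc ((⌊2 * (1 - ε) * R ^ 2 * ej K j⌋₊ : ℕ) : ℝ) ≤ 2 * (1 - ε) * R ^ 2 * ej K j :=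
        Nat.floor_le h1
    _ = (1 - ε) * (2 * R ^ 2 * ej K j) := by ring

theorem gam (hD : S_DISJ) (hN : S_DEN) : S_GAM := by
  intro K R ε hK hR hR1 hε hε2
  obtain ⟨Ta, hTa1, hTa, hTb⟩ := hD K R hK hR hR1
  obtain ⟨Tc, hTc⟩ := hN K R (ε / 2) hK hR hR1 (by linarith)
  refine ⟨max Ta Tc, le_trans hTa1 (le_max_left _ _), ?_⟩
  intro T0 n hT0
  have hA : (Ta : ℝ) ≤ T0 := by exact_mod_cast le_trans (le_max_left _ _) hT0
  have hC : (Tc : ℝ) ≤ T0 := by exact_mod_cast le_trans (le_max_right _ _) hT0
  have hT1 : (1 : ℝ) ≤ T0 := by exact_mod_cast le_trans (le_trans hTa1 (le_max_left _ _)) hT0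
  have hw : ∀ j ∈ WW K T0 n, (T0 : ℝ) + 1 ≤ tj K j ∧ tj K j ≤ (n : ℝ) - 1 := fun j hj =>
    (Finset.mem_filter.1 hj).2
  have hsub : ∀ j ∈ WW K T0 n, DD K R j ⊆ Om K T0 n := by
    intro j hj s hs
    obtain ⟨h1, h2⟩ := hw j hj
    obtain ⟨h3, h4⟩ := hTa j (by linarith) s hs
    rw [abs_lt] at h3 h4
    exact ⟨by linarith [h3.1], by linarith [h3.2], h4.1.le, h4.2⟩
  refine ⟨hsub, ?_, ?_, ?_⟩
  · unfold GG
    refine Measurable.const_mul ?_ _
    refine Measurable.sub ?_ ?_
    · exact ((continuous_rho K).comp Complex.continuous_re).measurable.indicator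
        (measurableSet_Om K T0 n)
    · refine Finset.measurable_sum _ fun j _ => ?_
      refine Measurable.const_mul ?_ _
      exact ((continuous_den K j).comp Complex.continuous_re).measurable.indicator
        (measurableSet_DD K R j)
  · intro s hs
    unfold GG
    rw [Set.indicator_of_notMem hs, Finset.sum_eq_zero, sub_zero, mul_zero]
    intro j hj
    rw [Set.indicator_of_notMem (fun h => hs (hsub j hj h)), mul_zero]
  · intro s hs
    have hre : 0 ≤ s.re := by
      have : (T0 : ℝ) ≤ s.re := hs.1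
      linarith
    have hrho := rho_nonneg K hK s.re hre
    have hpi := Real.pi_pos
    have key : 0 ≤ ∑ j ∈ WW K T0 n, ((mj K R ε j : ℝ) / (2 * R ^ 2 * ej K j)) *
        (DD K R j).indicator (fun s => den K j s.re) s ∧
        ∑ j ∈ WW K T0 n, ((mj K R ε j : ℝ) / (2 * R ^ 2 * ej K j)) *
        (DD K R j).indicator (fun s => den K j s.re) s ≤ (1 - ε / 2) * rho K s.re := by
      constructor
      · refine Finset.sum_nonneg fun j _ => ?_
        refine mul_nonneg (kappa_bound K R ε j hR (by linarith)).1 ?_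
        exact Set.indicator_nonneg (fun _ _ => den_nonneg K j _) s
      · by_cases hex : ∃ j0 ∈ WW K T0 n, s ∈ DD K R j0
        · obtain ⟨j0, hj0, hs0⟩ := hex
          rw [Finset.sum_eq_single j0]
          · rw [Set.indicator_of_mem hs0]
            have h1 := kappa_bound K R ε j0 hR (by linarith)
            have h2 := hTc j0 (by linarith [(hw j0 hj0).1]) s hs0
            have h3 := den_nonneg K j0 s.re
            calc (mj K R ε j0 : ℝ) / (2 * R ^ 2 * ej K j0) * den K j0 s.re
                ≤ (1 - ε) * ((1 + ε / 2) * rho K s.re) :=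
                  mul_le_mul h1.2 h2 h3 (by linarith)
              _ ≤ (1 - ε / 2) * rho K s.re := by nlinarith [mul_nonneg (sq_nonneg ε) hrho]
          · intro j hj hne
            rw [Set.indicator_of_notMem, mul_zero]
            intro hsj
            have := hTb j j0 hne (by linarith [(hw j hj).1]) (by linarith [(hw j0 hj0).1])
            exact Set.disjoint_left.1 this hsj hs0
          · intro h
            exact absurd hj0 h
        · push Not at hex
          rw [Finset.sum_eq_zero]
          · have : 0 ≤ 1 - ε / 2 := by linarith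
            positivity
          · intro j hj
            rw [Set.indicator_of_notMem (hex j hj), mul_zero]
    unfold GG
    rw [Set.indicator_of_mem hs]
    obtain ⟨h1, h2⟩ := key
    set S0 := ∑ j ∈ WW K T0 n, ((mj K R ε j : ℝ) / (2 * R ^ 2 * ej K j)) *
        (DD K R j).indicator (fun s => den K j s.re) s with hS0
    constructor
    · rw [div_eq_mul_one_div, mul_comm (1 / (2 * Real.pi))]
      refine mul_le_mul_of_nonneg_right ?_ (by positivity)
      linarith
    · rw [div_eq_mul_one_div (rho K s.re), mul_comm (1 / (2 * Real.pi))]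
      refine mul_le_mul_of_nonneg_right ?_ (by positivity)
      linarith

end Pool.Agent.W19.CI
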